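import Pool.Agent.W586.GZ.Stm

set_option autoImplicit false

namespace Pool.Agent.W177.GZ.RISH

open Pool.Agent.W586.GZ

theorem geom (K : ℕ) : ∑ l ∈ Finset.range K, (4 : ℝ) / 2 ^ (l + 1) = 4 - 4 / 2 ^ K := by
  induction K with
  | zero => simp
  | succ K ih =>
    rw [Finset.sum_range_succ, ih, pow_succ]
    field_simp
    ring

theorem main : S_RISH := by
  classical
  intro P K J x hR I hI t g hg
  have hIK : ∀ l ∈ I, l < K := fun l hl => Finset.mem_range.mp (hI hl)
  let Q : ℕ → Prop := fun l => J l ≤ t ∧ ¬ (l + 1 < K ∧ J (l + 1) ≤ t)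
  have hm : (0 : ℝ) < P.m t := P.mpos' t
  have hb : ∀ l ∈ I, ev g (x l) ≤ 4 / P.m t + 4 / 2 ^ (l + 1) + (if Q l then 4 else 0) := by
    intro l hl
    have hlK := hIK l hl
    have p1 : (0 : ℝ) ≤ 4 / P.m t := by positivity
    have p2 : (0 : ℝ) ≤ 4 / 2 ^ (l + 1) := by positivity
    have p3 : (0 : ℝ) ≤ (if Q l then 4 else 0) := by split_ifs <;> norm_num
    rcases lt_or_ge t (J l) with h1 | h1
    · have := hR.r1 l hlK t h1 g hg
      linarith
    · by_cases h2 : l + 1 < K ∧ J (l + 1) ≤ t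
      · have := hR.r3 l h2.1 t h2.2 g hg
        linarith
      · have h3 := hR.r2 l hlK g ⟨some t, hg⟩
        rw [if_pos ⟨h1, h2⟩]
        linarith
  refine (ev_sum_right I g hg.nn x).trans ((Finset.sum_le_sum hb).trans ?_)
  rw [Finset.sum_add_distrib, Finset.sum_add_distrib, Finset.sum_const, nsmul_eq_mul]
  have h1 : ∑ l ∈ I, (4 : ℝ) / 2 ^ (l + 1) ≤ 4 := by
    refine (Finset.sum_le_sum_of_subset_of_nonneg hI fun l _ _ => by positivity).trans ?_
    rw [geom]
    have : (0 : ℝ) ≤ 4 / 2 ^ K := by positivity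
    linarith
  have h2 : ∑ l ∈ I, (if Q l then (4 : ℝ) else 0) ≤ 4 := by
    rw [← Finset.sum_filter, Finset.sum_const, nsmul_eq_mul]
    have h3 : (I.filter Q).card ≤ 1 := by
      rw [Finset.card_le_one]
      intro a ha b hb'
      rw [Finset.mem_filter] at ha hb'
      by_contra hne
      have key : ∀ u v : ℕ, u < v → v < K → Q u → Q v → False := by
        intro u v huv hvK hu hv
        apply hu.2
        refine ⟨by omega, ?_⟩
        rcases Nat.lt_or_ge (u + 1) v with h | h
        · exact (hR.mono (u + 1) v h hvK).le.trans hv.1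
        · have : u + 1 = v := by omega
          rw [this]
          exact hv.1
      rcases lt_or_gt_of_ne hne with h | h
      · exact key a b h (hIK b hb'.1) ha.2 hb'.2
      · exact key b a h (hIK a ha.1) hb'.2 ha.2
    have h4 : (((I.filter Q).card : ℕ) : ℝ) ≤ 1 := by exact_mod_cast h3
    linarith
  have h5 : (I.card : ℝ) * (4 / P.m t) = 4 / P.m t * I.card := mul_comm _ _
  rw [h5]
  linarith

end Pool.Agent.W177.GZ.RISH
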